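import Pool.Agent.Y472.K.Defs2
import Pool.Agent.Y86.TK.Gau

/-! Job TK-POS: complex Gaussian integrals with a symmetry are positive. -/

set_option autoImplicit false

namespace Pool.Agent.Y604.TK

open MeasureTheory Pool.Agent.Y86.TK

theorem integrable_gauss {ι : Type} [Fintype ι] (R : QuadraticForm ℝ ((ι → ℝ) × ℝ))
    {n : ℕ} (L : ((ι → ℝ) × ℝ) ≃ₗ[ℝ] (Fin n → ℝ)) (h1 : ∀ v, R v = ∑ i, (L v i) ^ 2) :
    Integrable fun v => Real.exp (-(R v)) := by
  let L' : ((ι → ℝ) × ℝ) ≃L[ℝ] (Fin n → ℝ) := L.toContinuousLinearEquiv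
  have hL : ∀ v, L v = L' v := fun v => rfl
  simp only [h1, hL]
  have h0 : (volume : Measure ((ι → ℝ) × ℝ)).IsAddHaarMeasure := by
    rw [Measure.volume_eq_prod]
    infer_instance
  have hm : (Measure.map L' (volume : Measure ((ι → ℝ) × ℝ))).IsAddHaarMeasure :=
    L'.isAddHaarMeasure_map _
  have h2 : Integrable (fun x : Fin n → ℝ => Real.exp (-∑ i, (x i) ^ 2)) := by
    have h3 : ∀ x : Fin n → ℝ, Real.exp (-∑ i, (x i) ^ 2) = ∏ i, Real.exp (-1 * (x i) ^ 2) := by
      intro x
      rw [← Real.exp_sum]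
      congr 1
      rw [← Finset.sum_neg_distrib]
      exact Finset.sum_congr rfl fun i _ => by ring
    simp only [h3]
    exact Integrable.fintype_prod (fun _ => integrable_exp_neg_mul_sq one_pos)
  have h4 : Integrable (fun x : Fin n → ℝ => Real.exp (-∑ i, (x i) ^ 2))
      (Measure.map L' (volume : Measure ((ι → ℝ) × ℝ))) := by
    rw [Measure.isAddLeftInvariant_eq_smul
      (Measure.map L' (volume : Measure ((ι → ℝ) × ℝ))) (volume : Measure (Fin n → ℝ))]
    exact h2.smul_measure_nnreal
  exact (L'.toHomeomorph.measurableEmbedding.integrable_map_iff).1 h4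

theorem t_POS : Pool.Agent.Y472.K.S_POS := by
  intro hG ι _ R S T hR hTT hRT hST
  obtain ⟨n, L, β, h1, h2⟩ := diag R S hR
  have hint := integrable_gauss R L h1
  let L' : ((ι → ℝ) × ℝ) ≃L[ℝ] (Fin n → ℝ) := L.toContinuousLinearEquiv
  have hLc : ∀ i, Continuous fun v => L v i := fun i => (continuous_apply i).comp L'.continuous
  have hRc : Continuous fun v => R v := by
    simp only [h1]
    exact continuous_finsetSum _ fun i _ => (hLc i).pow 2
  have hSc : Continuous fun v => S v := by
    simp only [h2]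
    exact continuous_finsetSum _ fun i _ => continuous_const.mul ((hLc i).pow 2)
  have h0 : (volume : Measure ((ι → ℝ) × ℝ)).IsAddHaarMeasure := by
    rw [Measure.volume_eq_prod]
    infer_instance
  obtain ⟨g, hg⟩ : ∃ g : ℝ → ((ι → ℝ) × ℝ) → ℂ, ∀ t v, g t v =
      Complex.exp (-(R v : ℂ) - Complex.I * ((t * S v : ℝ) : ℂ)) := ⟨_, fun _ _ => rfl⟩
  have hnorm : ∀ t v, ‖g t v‖ = Real.exp (-(R v)) := by
    intro t v
    rw [hg, Complex.norm_exp]
    congr 1
    simp
  have hgc : ∀ t, Continuous (g t) := by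
    intro t
    have : g t = fun v => Complex.exp (-(R v : ℂ) - Complex.I * ((t * S v : ℝ) : ℂ)) :=
      funext fun v => hg t v
    rw [this]
    fun_prop
  have hF : Continuous fun t => ∫ v, g t v := by
    refine continuous_of_dominated (bound := fun v => Real.exp (-(R v))) ?_ ?_ hint ?_
    · intro t
      exact (hgc t).aestronglyMeasurable
    · intro t
      exact Filter.Eventually.of_forall fun v => (hnorm t v).le
    · refine Filter.Eventually.of_forall fun v => ?_
      simp only [hg]
      fun_prop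
  -- nonvanishing
  have hne : ∀ t, ∫ v, g t v ≠ 0 := by
    intro t
    have h3 := hG ι R (t • S) hR
    have h4 : ∀ v, g t v = Complex.exp (-(R v : ℂ) - Complex.I * (((t • S) v : ℝ) : ℂ)) := by
      intro v
      rw [hg, QuadraticMap.smul_apply, smul_eq_mul]
    simp only [h4]
    exact h3
  -- the symmetry preserves the measure
  let e : ((ι → ℝ) × ℝ) ≃L[ℝ] ((ι → ℝ) × ℝ) :=
    (LinearEquiv.ofInvolutive T hTT).toContinuousLinearEquiv
  have he : ∀ v, e v = T v := fun v => rfl
  have hdet : LinearMap.det T * LinearMap.det T = 1 := by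
    rw [← LinearMap.det_comp]
    have : T ∘ₗ T = LinearMap.id := LinearMap.ext hTT
    rw [this, LinearMap.det_id]
  have hdet0 : LinearMap.det T ≠ 0 := by
    intro h3
    rw [h3, mul_zero] at hdet
    exact zero_ne_one hdet
  have hmap : Measure.map e (volume : Measure ((ι → ℝ) × ℝ)) = volume := by
    have h3 := Measure.map_linearMap_addHaar_eq_smul_addHaar
      (volume : Measure ((ι → ℝ) × ℝ)) hdet0
    have h4 : |(LinearMap.det T)⁻¹| = 1 := by
      rcases mul_self_eq_one_iff.1 hdet with h5 | h5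
      · rw [h5]; norm_num
      · rw [h5]; norm_num
    rw [h4, ENNReal.ofReal_one, one_smul] at h3
    exact h3
  have hcomp : ∀ t, ∫ v, g t (T v) = ∫ v, g t v := by
    intro t
    have h3 := (e.toHomeomorph.measurableEmbedding.integral_map (μ := volume) (g t))
    change ∫ v, g t v ∂(Measure.map e volume) = ∫ v, g t (T v) at h3
    rw [hmap] at h3
    exact h3.symm
  have hreal : ∀ t, (starRingEnd ℂ) (∫ v, g t v) = ∫ v, g t v := by
    intro t
    rw [← integral_conj, ← hcomp t]
    congr 1
    funext v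
    rw [hg, hg, ← Complex.exp_conj, hRT, hST]
    congr 1
    simp
  have hre : ∀ t, ((∫ v, g t v).re : ℂ) = ∫ v, g t v := fun t =>
    Complex.conj_eq_iff_re.1 (hreal t)
  have hFr : Continuous fun t => (∫ v, g t v).re := Complex.continuous_re.comp hF
  have hner : ∀ t, (∫ v, g t v).re ≠ 0 := by
    intro t h3
    apply hne t
    rw [← hre t, h3, Complex.ofReal_zero]
  have hpos0 : 0 < (∫ v, g 0 v).re := by
    have h3 : ∫ v, g 0 v = ((∫ v, Real.exp (-(R v)) : ℝ) : ℂ) := by
      rw [← integral_complex_ofReal]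
      congr 1
      funext v
      rw [hg]
      simp
    rw [h3, Complex.ofReal_re]
    exact integral_exp_pos hint
  have hpos1 : 0 < (∫ v, g 1 v).re := by
    by_contra hcon
    obtain ⟨t, ht⟩ := mem_range_of_exists_le_of_exists_ge hFr ⟨1, not_lt.1 hcon⟩ ⟨0, hpos0.le⟩
    exact hner t ht
  refine ⟨_, hpos1, ?_⟩
  rw [hre 1]
  congr 1
  funext v
  rw [hg, one_mul]

end Pool.Agent.Y604.TK
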