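import Pool.Agent.Y472.K.Defs2

/-!
# Turk's head links: the sum over the configurations is real

The reflection `i'_r = i_{-r}`, `j'_r = j_{-r-1}` is an involution of the set of the configurations;
it conjugates the coefficient and it does not change the factor which depends on `χ`.
-/

set_option autoImplicit false

namespace Pool.Agent.Y604.TK

open Finset Pool.Agent.W711.HT Pool.Agent.Y472.K
open scoped Real ComplexConjugate

variable {n : ℕ} [NeZero n]

/-- the reflection of the upper indices -/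
def rI (i : Fin n → ℕ) : Fin n → ℕ := fun r => i (-r)

/-- the reflection of the lower indices -/
def rJ (j : Fin n → ℕ) : Fin n → ℕ := fun r => j (-r - 1)

omit [NeZero n] in
theorem rI_rI (i : Fin n → ℕ) : rI (rI i) = i := by
  funext r; simp [rI]

theorem rJ_rJ (j : Fin n → ℕ) : rJ (rJ j) = j := by
  funext r
  unfold rJ
  congr 1
  abel

/-- the involution `r ↦ -r - 1` -/
def refl (n : ℕ) [NeZero n] : Fin n ≃ Fin n where
  toFun r := -r - 1
  invFun r := -r - 1
  left_inv r := by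
    show -(-r - 1) - 1 = r
    abel
  right_inv r := by
    show -(-r - 1) - 1 = r
    abel

theorem Ok_r {N : ℕ} {i j : Fin n → ℕ} (h : Ok n N i j) : Ok n N (rI i) (rJ j) := by
  refine ⟨fun r => h.lt _, fun r => ?_, fun r => ?_⟩
  · have h1 := h.le' (-r - 1)
    have h2 : (-r - 1 + 1 : Fin n) = -r := by abel
    rw [h2] at h1
    exact h1
  · have h1 := h.le (-r - 1)
    have h2 : (-(r + 1) : Fin n) = -r - 1 := by abel
    show j (-r - 1) ≤ i (-(r + 1))
    rw [h2]
    exact h1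

/-! ### The coefficient -/

theorem conj_vN (N : ℕ) (k : ℤ) : conj (vN N ^ k) = vN N ^ (-k) := by
  have h1 : conj (vN N) = (vN N)⁻¹ := by
    unfold vN
    rw [← Complex.exp_conj, ← Complex.exp_neg]
    congr 1
    simp only [map_div₀, map_mul, Complex.conj_ofReal, Complex.conj_I, map_natCast]
    ring
  rw [map_zpow₀, h1, inv_zpow, zpow_neg]

theorem co_r (N : ℕ) (i j : Fin n → ℕ) : co n N (rI i) (rJ j) = conj (co n N i j) := by
  unfold co
  rw [map_prod]
  refine Fintype.prod_equiv (refl n) _ _ fun r => ?_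
  have e0 : refl n r = -r - 1 := rfl
  have e1 : (-r - 1 + 1 : Fin n) = -r := by abel
  have e2 : (-(r + 1) : Fin n) = -r - 1 := by abel
  rw [e0, map_div₀, map_mul, Complex.conj_ofReal, Complex.conj_ofReal, conj_vN, e1]
  unfold rI rJ
  rw [e2, mul_comm ((Sd N (i (-r) - j (-r - 1)) : ℝ) : ℂ)]
  congr 2
  ring

/-! ### The factor which depends on `χ` -/

theorem prod_Ioc (f : ℕ → ℂ) {j i N : ℕ} (hN : i < N) :
    ∏ s ∈ Ioc j i, f s = ∏ s ∈ range N, f s ^ (if j < s ∧ s ≤ i then 1 else 0) := by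
  have h1 : Ioc j i = (range N).filter fun s => j < s ∧ s ≤ i := by
    ext s
    simp only [mem_Ioc, mem_filter, mem_range]
    constructor
    · intro h
      exact ⟨by omega, h⟩
    · intro h
      exact h.2
  rw [h1, prod_filter]
  refine prod_congr rfl fun s _ => ?_
  split_ifs <;> simp

theorem prod_swap (f : ℕ → ℂ) {N : ℕ} {i j : Fin n → ℕ} (h : Ok n N i j) :
    ∏ r, ∏ s ∈ Ioc (j r) (i r), f s = ∏ r, ∏ s ∈ Ioc (j r) (i (r + 1)), f s := by
  have h1 : ∀ r, ∏ s ∈ Ioc (j r) (i r), f s =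
      ∏ s ∈ range N, f s ^ (if j r < s ∧ s ≤ i r then 1 else 0) := fun r => prod_Ioc f (h.lt r)
  have h2 : ∀ r, ∏ s ∈ Ioc (j r) (i (r + 1)), f s =
      ∏ s ∈ range N, f s ^ (if j r < s ∧ s ≤ i (r + 1) then 1 else 0) :=
    fun r => prod_Ioc f (h.lt (r + 1))
  simp_rw [h1, h2]
  rw [prod_comm, prod_comm (s := univ)]
  refine prod_congr rfl fun s _ => ?_
  rw [prod_pow_eq_pow_sum, prod_pow_eq_pow_sum]
  congr 1
  have k1 : ∑ r, (if j r < s ∧ s ≤ i r then 1 else 0) + ∑ r, (if s ≤ j r then 1 else 0) =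
      ∑ r, (if s ≤ i r then 1 else 0 : ℕ) := by
    rw [← sum_add_distrib]
    refine sum_congr rfl fun r _ => ?_
    have := h.le r
    split_ifs <;> omega
  have k2 : ∑ r, (if j r < s ∧ s ≤ i (r + 1) then 1 else 0) + ∑ r, (if s ≤ j r then 1 else 0) =
      ∑ r, (if s ≤ i (r + 1) then 1 else 0 : ℕ) := by
    rw [← sum_add_distrib]
    refine sum_congr rfl fun r _ => ?_
    have := h.le' r
    split_ifs <;> omega
  have k3 : ∑ r, (if s ≤ i (r + 1) then 1 else 0 : ℕ) = ∑ r, (if s ≤ i r then 1 else 0 : ℕ) :=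
    Equiv.sum_comp (Equiv.addRight (1 : Fin n)) fun r => (if s ≤ i r then 1 else 0 : ℕ)
  omega

theorem Qc_r {N : ℕ} {i j : Fin n → ℕ} (h : Ok n N i j) :
    Qc n N (rI i) (rJ j) = Qc n N i j := by
  funext χ
  unfold Qc Pq
  rw [← prod_swap _ h]
  refine Fintype.prod_equiv (refl n) _ _ fun r => ?_
  have e0 : refl n r = -r - 1 := rfl
  have e2 : (-(r + 1) : Fin n) = -r - 1 := by abel
  rw [e0]
  unfold rI rJ
  rw [e2]

theorem Qc_conj (N : ℕ) (i j : Fin n → ℕ) (χ : ℂ) :
    Qc n N i j (conj χ) = conj (Qc n N i j χ) := by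
  unfold Qc Pq
  rw [map_prod]
  refine prod_congr rfl fun r _ => ?_
  rw [map_prod]
  refine prod_congr rfl fun s _ => ?_
  have h2 : conj (2 : ℂ) = 2 := by
    have := Complex.conj_ofReal 2
    simpa using this
  rw [map_sub, map_mul, map_mul, Complex.conj_ofReal, ← Complex.cos_conj, h2]

theorem deriv_real (F : ℂ → ℂ) (hF : ∀ z, F (conj z) = conj (F z)) (x : ℝ) :
    conj (deriv F x) = deriv F x := by
  have h1 : (conj ∘ F ∘ conj) = F := by
    funext z
    show conj (F (conj z)) = F z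
    rw [hF, Complex.conj_conj]
  have h2 : deriv (conj ∘ F ∘ conj) (x : ℂ) = conj (deriv F (conj (x : ℂ))) :=
    congrFun (deriv_conj_conj (f := F)) (x : ℂ)
  rw [h1, Complex.conj_ofReal] at h2
  exact h2.symm

theorem ct_r {N : ℕ} {i j : Fin n → ℕ} (h : Ok n N i j) :
    ct n N (rI i) (rJ j) = conj (ct n N i j) := by
  unfold ct
  rw [co_r, Qc_r h, map_mul, map_sum]
  congr 1
  refine sum_congr rfl fun p _ => ?_
  have h1 : (2 * π * p / N : ℂ) = ((2 * π * p / N : ℝ) : ℂ) := by push_cast; ring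
  rw [h1]
  refine (deriv_real _ (fun z => ?_) _).symm
  rw [map_mul, Qc_conj, Complex.sin_conj]

theorem mem_r {N : ℕ} {c : (Fin n → ℕ) × (Fin n → ℕ)} (h : c ∈ cfg n N) :
    (rI c.1, rJ c.2) ∈ cfg n N := by
  classical
  unfold cfg at h ⊢
  rw [mem_filter, mem_product, Fintype.mem_piFinset, Fintype.mem_piFinset] at h ⊢
  refine ⟨⟨fun r => h.1.1 _, fun r => h.1.2 _⟩, Ok_r h.2⟩

theorem Ok_of {N : ℕ} {c : (Fin n → ℕ) × (Fin n → ℕ)} (h : c ∈ cfg n N) : Ok n N c.1 c.2 := by
  classical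
  unfold cfg at h
  rw [mem_filter] at h
  exact h.2

theorem t_REAL : Pool.Agent.Y472.K.S_REAL := by
  intro n N _ _
  rw [map_sum]
  refine sum_nbij' (fun c => (rI c.1, rJ c.2)) (fun c => (rI c.1, rJ c.2)) (fun c hc => mem_r hc)
    (fun c hc => mem_r hc) (fun c _ => ?_) (fun c _ => ?_) (fun c hc => ?_)
  · simp only [rI_rI, rJ_rJ]
  · simp only [rI_rI, rJ_rJ]
  · exact (ct_r (Ok_of hc)).symm

end Pool.Agent.Y604.TK
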